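import Pool.Agent.R934.Reduced

/-!
# MP_2093e0_al: strongly weakly nil-clean rings are the semi-potent WUU rings

We prove that a ring `R` is strongly weakly nil-clean (for each `a`, one of `a`, `-a` is the sum of an
idempotent and a nilpotent which commute) if and only if it is semi-potent (each right ideal not contained in
the Jacobson radical contains a nonzero idempotent) and WUU (each unit is `b + 1` or `b - 1` with `b`
nilpotent). This answers the question in full.

Sketch of the main implication: if `R` is semi-potent and WUU, then its radical `J` is nil (if `j` in `J` is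
not nilpotent then `2 + j` and `2 + j ^ 2` are, hence also `j (j - 1)`, hence `j`). The ring `T = R / J` is
reduced: otherwise it contains matrix units of size two, and the unit with the block `[[0, 1], [1, 1]]` and
`1` elsewhere is not unipotent up to sign. So idempotents of `T` are central, each nonzero right ideal of `T`
contains an idempotent `e ≠ 0` with `t e = e` or `t e = -e`, which gives `t ^ 3 = t` and then `t ^ 2 = t` or
`t ^ 2 = -t` for each `t`. Finally `a ^ 2 - a` or `a ^ 2 + a` is in the nil ideal `J` for each `a` in `R`.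
-/

set_option autoImplicit false

universe u

open Pool.Agent.R934 Polynomial

namespace Pool.Agent.Results.MP_2093e0_al.Characterization

/-- `a` is strongly nil-clean: the sum of an idempotent and a nilpotent that commute. -/
def StronglyNilClean {R : Type u} [Ring R] (a : R) : Prop :=
  ∃ e b : R, e * e = e ∧ IsNilpotent b ∧ e * b = b * e ∧ a = e + b

lemma snc_of {R : Type u} [Ring R] {a : R} (h : IsNilpotent (a * a - a)) : StronglyNilClean a := by
  set φ : ℤ[X] →+* R := (aeval a : ℤ[X] →ₐ[ℤ] R).toRingHom with hφ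
  set ι : (ℤ[X] ⧸ RingHom.ker φ) →+* R := RingHom.kerLift φ with hι
  have hinj : Function.Injective ι := RingHom.kerLift_injective φ
  set x : ℤ[X] ⧸ RingHom.ker φ := Ideal.Quotient.mk _ X with hx
  have hιx : ι x = a := by
    rw [hι, hx, RingHom.kerLift_mk, hφ]
    simp
  have hnil : IsNilpotent (x * x - x) := by
    obtain ⟨n, hn⟩ := h
    refine ⟨n, hinj ?_⟩
    rw [map_pow, map_sub, map_mul, hιx, hn, map_zero]
  set I : Ideal (ℤ[X] ⧸ RingHom.ker φ) := Ideal.span {x * x - x} with hI
  have hker : ∀ y ∈ RingHom.ker (Ideal.Quotient.mk I), IsNilpotent y := by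
    intro y hy
    rw [Ideal.mk_ker, hI, Ideal.mem_span_singleton'] at hy
    obtain ⟨c, rfl⟩ := hy
    exact (Commute.all _ _).isNilpotent_mul_left hnil
  have hid : IsIdempotentElem (Ideal.Quotient.mk I x) := by
    rw [IsIdempotentElem, ← map_mul, ← sub_eq_zero, ← map_sub, Ideal.Quotient.eq_zero_iff_mem]
    exact Ideal.subset_span rfl
  obtain ⟨e, he, hex⟩ := exists_isIdempotentElem_eq_of_ker_isNilpotent (Ideal.Quotient.mk I) hker
    _ ⟨x, rfl⟩ hid
  have hb : IsNilpotent (x - e) := by
    apply hker
    rw [RingHom.mem_ker, map_sub, hex, sub_self]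
  refine ⟨ι e, ι (x - e), ?_, hb.map ι, ?_, ?_⟩
  · rw [← map_mul, he.eq]
  · rw [← map_mul, ← map_mul, mul_comm]
  · rw [← map_add, add_sub_cancel, hιx]

lemma unit_of_snc {R : Type u} [Ring R] {v : R} (hv : IsUnit v) (h : StronglyNilClean v) :
    ∃ b : R, IsNilpotent b ∧ v = b + 1 := by
  obtain ⟨e, b, he, hb, heb, hveb⟩ := h
  have hcomm : Commute (-b) v := by
    rw [hveb]
    exact ((show Commute b e from heb.symm).add_right (Commute.refl b)).neg_left
  have hu : IsUnit (v + -b) := hb.neg.isUnit_add_left_of_commute hv hcomm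
  have he1 : v + -b = e := by rw [hveb]; abel
  rw [he1] at hu
  have he2 : e = 1 := by
    have h3 : e * e = e * 1 := by rw [he, mul_one]
    exact hu.mul_left_cancel h3
  exact ⟨b, hb, by rw [hveb, he2, add_comm]⟩

lemma idem_mem_of_snc {R : Type u} [Ring R] {c : R} (hc : ¬ IsNilpotent c)
    (h : StronglyNilClean c) : ∃ x : R, (c * x) * (c * x) = c * x ∧ c * x ≠ 0 := by
  obtain ⟨e, b, he, hb, heb, hceb⟩ := h
  have he0 : e ≠ 0 := by
    rintro rfl
    apply hc
    rw [hceb, zero_add]
    exact hb
  obtain ⟨w, hw⟩ := hb.isUnit_one_add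
  have hew : Commute e (w : R) := by
    rw [hw]
    exact (Commute.one_right e).add_right heb
  have h1 : c * (e * (↑w⁻¹ : R)) = e := by
    have h2 : c * e = (w : R) * e := by
      rw [hceb, hw, add_mul, add_mul, he, one_mul]
    rw [← mul_assoc, h2, ← hew.eq, mul_assoc, Units.mul_inv, mul_one]
  exact ⟨e * (↑w⁻¹ : R), by rw [h1, he], by rw [h1]; exact he0⟩

lemma nil_of_wuu {R : Type u} [Ring R]
    (hW : ∀ v : Rˣ, ∃ b : R, IsNilpotent b ∧ ((v : R) = b + 1 ∨ (v : R) = b - 1)) {j : R}
    (hj : j ∈ Ring.jacobson R) : IsNilpotent j := by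
  have key : ∀ {i : R}, i ∈ Ring.jacobson R → IsNilpotent i ∨ IsNilpotent (2 + i) := by
    intro i hi
    obtain ⟨v, hv⟩ := isUnit_one_add_of_mem_jacobson hi
    obtain ⟨b, hb, h | h⟩ := hW v
    · left
      have : i = b := by
        rw [hv, add_comm] at h
        exact add_right_cancel h
      rw [this]; exact hb
    · right
      have : 2 + i = b := by
        rw [hv] at h
        calc (2 : R) + i = (1 + i) + 1 := by rw [← one_add_one_eq_two]; abel
          _ = b := by rw [h, sub_add_cancel]
      rw [this]; exact hb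
  rcases key hj with h | h
  · exact h
  rcases key (jacobson_mul_mem_right hj j) with h' | h'
  · obtain ⟨n, hn⟩ := h'
    exact ⟨2 * n, by rw [pow_mul, sq, hn]⟩
  · have hcomm : Commute (2 + j * j) (2 + j) := by
      have h1 : Commute j (2 : R) := Commute.ofNat_right j 2
      have h2 : Commute (2 : R) (2 : R) := Commute.refl _
      exact (h2.add_right h1.symm).add_left
        (((h1.mul_left h1).add_right ((Commute.refl j).mul_left (Commute.refl j))))
    have h3 : IsNilpotent ((2 + j * j) - (2 + j)) := hcomm.isNilpotent_sub h' h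
    have h4 : (2 + j * j) - (2 + j) = (1 + -j) * (-j) := by noncomm_ring
    rw [h4] at h3
    obtain ⟨n, hn⟩ := h3
    have h5 : IsUnit (1 + -j) :=
      isUnit_one_add_of_mem_jacobson (Submodule.neg_mem _ hj)
    have h6 : Commute (1 + -j) (-j) := (Commute.one_left _).add_left (Commute.refl _)
    rw [h6.mul_pow] at hn
    have h7 : (-j) ^ n = 0 := (h5.pow n).mul_right_eq_zero.1 hn
    have h8 : IsNilpotent (-j) := ⟨n, h7⟩
    simpa using h8.neg

/-- A ring is strongly weakly nil-clean if and only if it is semi-potent and WUU. -/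
theorem result (R : Type u) [Ring R] :
    (∀ a : R, StronglyNilClean a ∨ StronglyNilClean (-a)) ↔
      ((∀ I : Submodule Rᵐᵒᵖ R, (∃ a ∈ I, a ∉ Ring.jacobson R) → ∃ e ∈ I, e * e = e ∧ e ≠ 0) ∧
        ∀ v : Rˣ, ∃ b : R, IsNilpotent b ∧ ((v : R) = b + 1 ∨ (v : R) = b - 1)) := by
  constructor
  · intro h
    refine ⟨?_, ?_⟩
    · rintro I ⟨a, haI, haJ⟩
      have h1 : ∃ x : R, ¬ IsNilpotent (a * x) := by
        by_contra hcon
        push Not at hcon
        apply haJ
        apply mem_jacobson_of_forall
        intro y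
        obtain ⟨n, hn⟩ := hcon y
        have h2 : IsNilpotent (y * a) := by
          refine ⟨n + 1, ?_⟩
          have h3 : ∀ m : ℕ, (y * a) ^ (m + 1) = y * (a * y) ^ m * a := by
            intro m
            induction m with
            | zero => simp
            | succ m ih => rw [pow_succ, ih, pow_succ]; simp only [mul_assoc]
          rw [h3, hn, mul_zero, zero_mul]
        obtain ⟨w, hw⟩ := h2.isUnit_one_add
        exact ⟨(↑w⁻¹ : R), by rw [← hw, Units.inv_mul]⟩
      obtain ⟨x, hx⟩ := h1
      have h4 : ∀ y : R, a * y ∈ I := fun y => by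
        have := I.smul_mem (MulOpposite.op y) haI
        rwa [MulOpposite.smul_eq_mul_unop] at this
      rcases h (a * x) with h5 | h5
      · obtain ⟨y, hy1, hy2⟩ := idem_mem_of_snc hx h5
        exact ⟨a * x * y, by rw [mul_assoc]; exact h4 _, hy1, hy2⟩
      · have hx' : ¬ IsNilpotent (-(a * x)) := fun h6 => hx (by simpa using h6.neg)
        obtain ⟨y, hy1, hy2⟩ := idem_mem_of_snc hx' h5
        refine ⟨-(a * x) * y, ?_, hy1, hy2⟩
        have h6 : -(a * x) * y = a * (-(x * y)) := by noncomm_ring
        rw [h6]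
        exact h4 _
    · intro v
      rcases h v with h1 | h1
      · obtain ⟨b, hb, hvb⟩ := unit_of_snc v.isUnit h1
        exact ⟨b, hb, Or.inl hvb⟩
      · obtain ⟨b, hb, hvb⟩ := unit_of_snc v.isUnit.neg h1
        refine ⟨-b, hb.neg, Or.inr ?_⟩
        have h2 : (v : R) = -(b + 1) := by rw [← hvb, neg_neg]
        rw [h2]
        abel
  · rintro ⟨hP, hW⟩ a
    have h1 : ∀ t : R ⧸ Ring.jacobson R, t ≠ 0 → ∃ x, (t * x) * (t * x) = t * x ∧ t * x ≠ 0 := by
      intro t ht
      obtain ⟨c, rfl⟩ := Ideal.Quotient.mk_surjective t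
      have hc : c ∉ Ring.jacobson R := fun h => ht (Ideal.Quotient.eq_zero_iff_mem.2 h)
      obtain ⟨e, heI, he, he0⟩ := hP (Submodule.span Rᵐᵒᵖ {c}) ⟨c, Submodule.mem_span_singleton_self c, hc⟩
      obtain ⟨y, hy⟩ := Submodule.mem_span_singleton.1 heI
      rw [MulOpposite.smul_eq_mul_unop] at hy
      refine ⟨Ideal.Quotient.mk _ (MulOpposite.unop y), ?_, ?_⟩
      · rw [← map_mul, hy, ← map_mul, he]
      · rw [← map_mul, hy]
        intro h0
        rw [Ideal.Quotient.eq_zero_iff_mem] at h0
        have h3 : IsUnit (1 + -e) :=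
          isUnit_one_add_of_mem_jacobson (Submodule.neg_mem _ h0)
        have h4 : e * (1 + -e) = 0 := by rw [mul_add, mul_one, mul_neg, he, add_neg_cancel]
        exact he0 (h3.mul_left_eq_zero.1 h4)
    have h2 : ∀ v w : R ⧸ Ring.jacobson R, v * w = 1 → w * v = 1 →
        IsNilpotent (v - 1) ∨ IsNilpotent (v + 1) := by
      intro v w hvw hwv
      obtain ⟨c, rfl⟩ := Ideal.Quotient.mk_surjective v
      obtain ⟨d, rfl⟩ := Ideal.Quotient.mk_surjective w
      rw [← map_mul, ← map_one (Ideal.Quotient.mk (Ring.jacobson R)), ← sub_eq_zero, ← map_sub,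
        Ideal.Quotient.eq_zero_iff_mem] at hvw hwv
      have h3 : IsUnit (c * d) := by
        have := isUnit_one_add_of_mem_jacobson hvw
        rwa [add_sub_cancel] at this
      have h4 : IsUnit (d * c) := by
        have := isUnit_one_add_of_mem_jacobson hwv
        rwa [add_sub_cancel] at this
      obtain ⟨p, hp⟩ := h3
      obtain ⟨q, hq⟩ := h4
      have hr : c * (d * (↑p⁻¹ : R)) = 1 := by rw [← mul_assoc, ← hp, Units.mul_inv]
      have hl : ((↑q⁻¹ : R) * d) * c = 1 := by rw [mul_assoc, ← hq, Units.inv_mul]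
      have hlr : (↑q⁻¹ : R) * d = d * (↑p⁻¹ : R) := left_inv_eq_right_inv hl hr
      obtain ⟨b, hb, h | h⟩ := hW ⟨c, d * (↑p⁻¹ : R), hr, by rw [← hlr, hl]⟩
      · left
        have h5 : c = b + 1 := h
        rw [h5, map_add, map_one, add_sub_cancel_right]
        exact hb.map _
      · right
        have h5 : c = b - 1 := h
        rw [h5, map_sub, map_one, sub_add_cancel]
        exact hb.map _
    rcases sq_eq_or h1 h2 (Ideal.Quotient.mk _ a) with h | h
    · left
      apply snc_of
      apply nil_of_wuu hW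
      rw [← Ideal.Quotient.eq_zero_iff_mem, map_sub, map_mul, h, sub_self]
    · right
      apply snc_of
      apply nil_of_wuu hW
      rw [← Ideal.Quotient.eq_zero_iff_mem, map_sub, map_mul, map_neg, neg_mul_neg, h, sub_self]

end Pool.Agent.Results.MP_2093e0_al.Characterization
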